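import Pool.Agent.N912.EL.Stm
import Pool.Agent.W179.EG.BTX
import Pool.Agent.W372.EG.Btmx

/-! # EL/9 SML: the pairs with small determinant -/

set_option autoImplicit false

namespace Pool.Agent.N756.EL

open Finset Filter
open Pool.Agent.W78.GA
open Pool.Agent.W78.EG
open Pool.Agent.N912.EL
open Pool.Agent.W179.EG (hDf split3 small_partA ev_log cone_total Gv_symm Gv_nonneg dt_anti)
open Pool.Agent.W372.EG (exists_cst Cst Lev2 bound_a1X)
open Pool.Agent.W125.EC (avg_le tail_small)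

theorem sml {t c : ℤ} {f : ℕ} {χ : DirichletCharacter ℂ f} (hF : Fd t c f χ) (h1 : S_GG0 t c χ)
    (h2 : S_JB t c χ) (h4 : S_LN t c) (h5 : S_DTB t c f) : S_SML t c χ := by
  classical
  have hD := hDf hF
  have : Fact (t ^ 2 < 4 * c) := ⟨hD⟩
  intro K κ s₁ s₂ hK hκ hs₁ h12 hs₂
  obtain ⟨C, hC⟩ := exists_cst (s₂ := s₂) hF h2 h4 h5 hK hκ hs₁ hs₂
  have hC1 := hC.one
  obtain ⟨Cφ, hCφ, havg⟩ := avg_le
  obtain ⟨CL, hCL⟩ := h4 s₁ hs₁
  have hC0 : 0 < 2 * C + 2 * (C ^ 4 * Cφ) + 1 := by positivity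
  refine ⟨2 * C + 2 * (C ^ 4 * Cφ) + 1, hC0, fun δ hδ hδ1 => ?_⟩
  obtain ⟨h₀, htail⟩ := tail_small (η := 1) one_pos
  set C₁ : ℝ := 64 * (1 / κ + 1) with hC₁
  have hC₁0 : 0 < C₁ := by positivity
  obtain ⟨Q₁, hQ₁⟩ := h1 K κ s₁ δ hK hκ hs₁ hδ
  obtain ⟨Q₂, hQ₂⟩ := eventually_atTop.1 (ev_log (max (192 * C₁ * CL ^ 2 / δ) (1 + 1 / δ)))
  refine ⟨max Q₁ Q₂, fun Q hQ X hX => ?_⟩
  have hQa : Q₁ ≤ Q := (le_max_left _ _).trans hQ
  have hQb : Q₂ ≤ Q := (le_max_right _ _).trans hQ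
  obtain ⟨l1', l2, l3, l4⟩ := hQ₂ Q hQb
  have l1 := (le_max_left _ _).trans l1'
  have l0 := (le_max_right _ _).trans l1'
  have hQ1 : 1 ≤ Q := by omega
  have hQR : (1 : ℝ) ≤ Q := by exact_mod_cast hQ1
  have hKR : (1 : ℝ) ≤ K := by exact_mod_cast hK
  have hf3 : (3 : ℝ) ≤ f := by exact_mod_cast hF.three
  have hKQ1 : (1 : ℝ) ≤ K * Q := one_le_mul_of_one_le_of_one_le hKR hQR
  have hX1 : 1 ≤ X := by nlinarith
  have hX0 : 0 < X := by linarith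
  have hQ0 : (0 : ℝ) < Q := by linarith
  have hl0 : 0 < Real.log Q := by linarith
  set R : ℝ := (Q : ℝ) / Real.log Q ^ 3 with hR
  have hR1 : 1 ≤ R := by
    rw [hR, le_div_iff₀ (by positivity), one_mul]; exact l2
  have hR0 : 0 < R := by linarith
  have hthr : R ≤ δ * Q := by
    have hδi : 0 < 1 / δ := by positivity
    have g2 : 1 / δ ≤ Real.log Q ^ 3 := by
      calc 1 / δ ≤ Real.log Q := by linarith
        _ = Real.log Q ^ 1 := (pow_one _).symm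
        _ ≤ Real.log Q ^ 3 := pow_le_pow_right₀ l3 (by norm_num)
    rw [hR, div_le_iff₀ (by positivity)]
    rw [div_le_iff₀ hδ] at g2
    nlinarith [mul_le_mul_of_nonneg_right g2 hQ0.le]
  have hcone := cone_total hF h5 hK hκ hQ1 hX
  rw [← hC₁] at hcone
  -- the two functions
  set F : Qd t c → Qd t c → ℝ := fun a b => if |(dt a b : ℝ)| < δ * Q then Gv χ Q X a b else 0
    with hFdef
  have hFs : ∀ a b, F a b = F b a := by
    intro a b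
    simp only [hFdef]
    rw [dt_anti a b, Gv_symm]
    push_cast
    rw [abs_neg]
  set B : Qd t c × Qd t c → ℝ := fun e => ∑ w₁ ∈ cw X s₁ s₂ e.1 e.2, ∑ w₂ ∈ cw X s₁ s₂ e.1 e.2,
    (if R ≤ (dt w₁ w₂ : ℝ) then |Gv χ Q X w₁ w₂ - G0 χ Q X w₁ w₂| else 0) with hB
  set M : Qd t c × Qd t c → ℝ := fun e => ∑ w ∈ cw X s₁ s₂ e.1 e.2, ∑ z ∈ cw X s₁ s₂ e.1 e.2,
    |if R ≤ (dt z w : ℝ) ∧ ¬ δ * Q ≤ (dt z w : ℝ) then (1 : ℝ) * 1 * G0 χ Q X z w else 0| with hM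
  set Sm : Qd t c × Qd t c → ℝ := fun e => ∑ w₁ ∈ cw X s₁ s₂ e.1 e.2, ∑ w₂ ∈ cw X s₁ s₂ e.1 e.2,
    (if |(dt w₁ w₂ : ℝ)| < R then (1 : ℝ) * 1 * Gv χ Q X w₁ w₂ else 0) with hSm
  have e1 : ∀ e ∈ good t c K κ Q X,
      ∑ w₁ ∈ cw X s₁ s₂ e.1 e.2, ∑ w₂ ∈ cw X s₁ s₂ e.1 e.2, F w₁ w₂ ≤ 2 * (B e + M e) + Sm e := by
    intro e _
    rw [split3 _ R hR0 F hFs]
    have a1 : ∑ w₁ ∈ cw X s₁ s₂ e.1 e.2, ∑ w₂ ∈ cw X s₁ s₂ e.1 e.2,
        (if R ≤ (dt w₁ w₂ : ℝ) then F w₁ w₂ else 0) ≤ B e + M e := by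
      rw [hB, hM]
      simp only
      rw [sum_comm (f := fun w z => |if R ≤ (dt z w : ℝ) ∧ ¬ δ * Q ≤ (dt z w : ℝ) then
        (1 : ℝ) * 1 * G0 χ Q X z w else 0|)]
      simp only [← sum_add_distrib]
      refine sum_le_sum fun a _ => sum_le_sum fun b _ => ?_
      by_cases c1 : R ≤ (dt a b : ℝ)
      · rw [if_pos c1, if_pos c1]
        have p0 : (0 : ℝ) < (dt a b : ℝ) := hR0.trans_le c1
        simp only [hFdef]
        rw [abs_of_pos p0]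
        by_cases c2 : (dt a b : ℝ) < δ * Q
        · rw [if_pos c2, if_pos ⟨c1, not_le.2 c2⟩, one_mul, one_mul]
          have q1 := le_abs_self (Gv χ Q X a b - G0 χ Q X a b)
          have q2 := le_abs_self (G0 χ Q X a b)
          linarith
        · rw [if_neg c2]
          positivity
      · rw [if_neg c1, if_neg c1]
        positivity
    have a2 : ∑ w₁ ∈ cw X s₁ s₂ e.1 e.2, ∑ w₂ ∈ cw X s₁ s₂ e.1 e.2,
        (if |(dt w₁ w₂ : ℝ)| < R then F w₁ w₂ else 0) ≤ Sm e := by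
      rw [hSm]
      refine sum_le_sum fun a _ => sum_le_sum fun b _ => ?_
      by_cases c1 : |(dt a b : ℝ)| < R
      · rw [if_pos c1, if_pos c1, one_mul, one_mul]
        simp only [hFdef]
        split_ifs
        · exact le_rfl
        · exact Gv_nonneg _ _ _ _ _
      · rw [if_neg c1, if_neg c1]
    linarith
  -- the difference
  have e3 : ∀ e ∈ good t c K κ Q X, B e ≤ δ * (Q : ℝ) ^ 3 := by
    intro e he
    have g1 := hQ₁ Q hQa X hX e he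
    rw [← hR] at g1
    refine le_trans ?_ g1
    rw [hB]
    have hsub : cw X s₁ s₂ e.1 e.2 ⊆ cw X s₁ 1 e.1 e.2 := by
      intro z hz
      unfold cw at hz ⊢
      rw [mem_filter] at hz ⊢
      refine ⟨hz.1, hz.2.1, hz.2.2.trans ?_⟩
      exact mul_le_mul_of_nonneg_right hs₂ hX0.le
    have nn : ∀ a b : Qd t c,
        0 ≤ (if R ≤ (dt a b : ℝ) then |Gv χ Q X a b - G0 χ Q X a b| else 0) := by
      intro a b
      split_ifs
      · exact abs_nonneg _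
      · exact le_rfl
    refine le_trans (sum_le_sum fun a _ => ?_) (sum_le_sum_of_subset_of_nonneg hsub
      fun a _ _ => sum_nonneg fun b _ => nn a b)
    exact sum_le_sum_of_subset_of_nonneg hsub fun b _ _ => nn a b
  have e4 : ∑ e ∈ good t c K κ Q X, B e ≤ C * δ * X * (Q : ℝ) ^ 2 := by
    refine (sum_le_sum e3).trans ?_
    rw [sum_const, nsmul_eq_mul]
    refine (mul_le_mul_of_nonneg_right (hC.gcard Q X hQ1 hX) (by positivity)).trans (le_of_eq ?_)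
    field_simp
  -- the main term
  have L : Lev2 t c χ K κ s₁ s₂ C Cφ δ 1 h₀ Q X R :=
    ⟨hC, havg, hCφ, one_pos, hδ, htail, hQ1, hX, hX1, hR0, hthr⟩
  have e5 : ∑ e ∈ good t c K κ Q X, M e ≤ (C ^ 4 * Cφ * δ) * (X * (Q : ℝ) ^ 2) :=
    bound_a1X (aa := fun _ => (1 : ℝ)) (fun _ => by simp) L
  -- the small determinants
  have e6 : ∀ e ∈ good t c K κ Q X, Sm e ≤ ((cone X e.1 e.2).card : ℝ) *
      (48 * (CL : ℝ) ^ 2 * R * Q * Real.log (2 * Q) ^ 2) := by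
    intro e _
    refine (le_abs_self _).trans ?_
    exact small_partA χ hD (A := fun _ => (1 : ℝ)) (fun _ => by simp) hX0 hQ1 hR1
      (fun w m hw hn => hCL X w m hX1 hw hn) e.1 e.2
  have e8 : ∑ e ∈ good t c K κ Q X, Sm e ≤ δ * X * (Q : ℝ) ^ 2 := by
    refine (sum_le_sum e6).trans ?_
    rw [← sum_mul]
    have g0 : Real.log (2 * Q) ≤ 2 * Real.log Q := by
      rw [Real.log_mul (by norm_num) (by positivity)]
      have : Real.log 2 ≤ Real.log Q := by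
        apply Real.log_le_log (by norm_num)
        have : (3 : ℝ) ≤ Q := by exact_mod_cast l4
        linarith
      linarith
    have g00 : 0 ≤ Real.log (2 * Q) := Real.log_nonneg (by linarith)
    have g1 : Real.log (2 * Q) ^ 2 ≤ 4 * Real.log Q ^ 2 := by nlinarith
    have g2 : 48 * (CL : ℝ) ^ 2 * R * Q * Real.log (2 * Q) ^ 2 ≤
        48 * (CL : ℝ) ^ 2 * R * Q * (4 * Real.log Q ^ 2) :=
      mul_le_mul_of_nonneg_left g1 (by positivity)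
    have g3 : 48 * (CL : ℝ) ^ 2 * R * Q * (4 * Real.log Q ^ 2) =
        192 * (CL : ℝ) ^ 2 * (Q : ℝ) ^ 2 / Real.log Q := by
      rw [hR]
      field_simp
      ring
    calc (∑ e ∈ good t c K κ Q X, ((cone X e.1 e.2).card : ℝ)) *
          (48 * (CL : ℝ) ^ 2 * R * Q * Real.log (2 * Q) ^ 2)
        ≤ (C₁ * X) * (192 * (CL : ℝ) ^ 2 * (Q : ℝ) ^ 2 / Real.log Q) := by
          apply mul_le_mul hcone (g2.trans_eq g3) (by positivity) (by positivity)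
      _ = (192 * C₁ * (CL : ℝ) ^ 2 / Real.log Q) * (X * (Q : ℝ) ^ 2) := by ring
      _ ≤ δ * (X * (Q : ℝ) ^ 2) := by
          apply mul_le_mul_of_nonneg_right _ (by positivity)
          rw [div_le_iff₀ hl0]
          rw [div_le_iff₀ hδ] at l1
          linarith
      _ = _ := by ring
  have e9 : ∑ e ∈ good t c K κ Q X, ∑ w₁ ∈ cw X s₁ s₂ e.1 e.2, ∑ w₂ ∈ cw X s₁ s₂ e.1 e.2,
      F w₁ w₂ ≤ 2 * (∑ e ∈ good t c K κ Q X, B e + ∑ e ∈ good t c K κ Q X, M e) +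
        ∑ e ∈ good t c K κ Q X, Sm e := by
    rw [← sum_add_distrib, mul_sum, ← sum_add_distrib]
    exact sum_le_sum e1
  calc ∑ e ∈ good t c K κ Q X, ∑ w₁ ∈ cw X s₁ s₂ e.1 e.2, ∑ w₂ ∈ cw X s₁ s₂ e.1 e.2,
      (if |(dt w₁ w₂ : ℝ)| < δ * Q then Gv χ Q X w₁ w₂ else 0) ≤ _ := e9
    _ ≤ 2 * (C * δ * X * (Q : ℝ) ^ 2 + (C ^ 4 * Cφ * δ) * (X * (Q : ℝ) ^ 2)) +
        δ * X * (Q : ℝ) ^ 2 := by linarith
    _ = (2 * C + 2 * (C ^ 4 * Cφ) + 1) * δ * X * (Q : ℝ) ^ 2 := by ring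

end Pool.Agent.N756.EL
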